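import Pool.Agent.Q74.KP.Main
import Pool.Agent.Q74.KP.Expl

/-! # Coalescence of 3x+1 trajectories: convergence to coalescing random walks

`Td d x = x / 2` for even `x` and `(3 * x + d) / 2` for odd `x` (`d` is odd; `Td 1` is the shortcut Collatz map),
`ocd d t x` is the number of the odd terms among the first `t` terms of the trajectory of `x`.
`NG g t a` is the expected value of `g` at the places after `t` steps of `k` independent walkers which start at `a`
and stay or move one to the right with probability `1 / 2` each at every step, on the event that they are at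
pairwise distinct places at all the times `0, ..., t`. -/

set_option autoImplicit false

namespace Pool.Agent.Results.MP_d02c56_nt.ArratiaFlow

open Finset
open Pool.Agent.Q74.AR (Td ocd)
open Pool.Agent.Q74.KP (NG Erf)

open Classical in
theorem result :
    (∀ (k : ℕ) (Λ ε : ℝ), 0 ≤ Λ → 0 < ε → ∃ ρ : ℝ, 0 < ρ ∧ ∃ t₀ K : ℕ, ∀ t : ℕ, t₀ ≤ t →
      ∀ (a : Fin k → ℕ) (b : Fin k → ℤ),
      (∀ i j : Fin k, ((a j : ℝ) - a i) * Real.log t ≤ ρ * t) →
      (∀ i j : Fin k, a i ≤ a j → |(b j : ℝ) - 3 ^ (a j - a i) * b i| ≤ 3 ^ (a j - a i) * Real.exp (ρ * t)) →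
      ∀ d : ℤ, d % 2 = 1 → ∀ (u s : ℤ), u % 2 = 1 → ∀ (M : ℤ) (L : ℕ), K * 2 ^ t ≤ L →
      -- the limit law
      (∀ G : (Fin k → ℝ) → ℝ, (∀ x, |G x| ≤ 1) → (∀ x y, |G x - G y| ≤ Λ * ∑ i, |x i - y i|) →
        |∑ n ∈ Ico M (M + L), (if Function.Injective (fun i => (Td d)^[t] (3 ^ a i * (u * n + s) + d * b i)) then
            G (fun i => (a i + ocd d t (3 ^ a i * (u * n + s) + d * b i) - t / 2) / √t) else 0) -
          NG (fun z => G (fun i => (z i - t / 2) / √t)) t (fun i => (a i : ℤ)) * L| ≤ ε * L) ∧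
      -- invariant sets
      (∀ S : Fin k → Set ℤ, (∀ i x, Td d x ∈ S i ↔ x ∈ S i) → (∀ i j, i ≠ j → Disjoint (S i) (S j)) →
        ({n : ℤ | M ≤ n ∧ n < M + L ∧ ∀ i, 3 ^ a i * (u * n + s) + d * b i ∈ S i}.ncard : ℝ) ≤
          (NG (fun _ => 1) t (fun i => (a i : ℤ)) + ε) * L) ∧
      -- no crossing
      (∀ i j l : Fin k, a i ≤ a j → a j ≤ a l →
        ({n : ℤ | M ≤ n ∧ n < M + L ∧
          (Td d)^[t] (3 ^ a i * (u * n + s) + d * b i) = (Td d)^[t] (3 ^ a l * (u * n + s) + d * b l) ∧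
          (Td d)^[t] (3 ^ a j * (u * n + s) + d * b j) ≠ (Td d)^[t] (3 ^ a i * (u * n + s) + d * b i)}.ncard : ℝ) ≤
          ε * L)) ∧
    -- three and four walkers
    (∀ ε : ℝ, 0 < ε → ∃ t₀ : ℕ, ∀ t : ℕ, t₀ ≤ t →
      (∀ a : Fin 3 → ℤ, Monotone a → |NG (fun _ => 1) t a - (Erf ((a 1 - a 0 : ℤ) / √t) +
        Erf ((a 2 - a 1 : ℤ) / √t) - Erf ((a 2 - a 0 : ℤ) / √t))| ≤ ε) ∧
      (∀ a : Fin 4 → ℤ, Monotone a → |NG (fun _ => 1) t a -
        (Erf ((a 1 - a 0 : ℤ) / √t) * Erf ((a 3 - a 2 : ℤ) / √t) -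
        Erf ((a 2 - a 0 : ℤ) / √t) * Erf ((a 3 - a 1 : ℤ) / √t) +
        Erf ((a 3 - a 0 : ℤ) / √t) * Erf ((a 2 - a 1 : ℤ) / √t))| ≤ ε)) := by
  refine ⟨fun k Λ ε hΛ hε => ?_, fun ε hε => Pool.Agent.Q74.KP.explicit hε⟩
  obtain ⟨ρ₁, hρ₁, t₁, K₁, h1⟩ := Pool.Agent.Q74.KP.unsorted k hΛ hε
  obtain ⟨ρ₂, hρ₂, t₂, K₂, h2⟩ := Pool.Agent.Q74.KP.no_cross hε
  refine ⟨min ρ₁ ρ₂, lt_min hρ₁ hρ₂, t₁ + t₂ + 1, K₁ + K₂, fun t ht a b hsp hb d hd u s hu M L hL => ?_⟩
  have ht0 : (0 : ℝ) < t := by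
    have : 0 < t := by omega
    exact_mod_cast this
  have hst : 0 < √(t : ℝ) := Real.sqrt_pos.2 ht0
  have hb1 : ∀ i j : Fin k, a i ≤ a j →
      |(b j : ℝ) - 3 ^ (a j - a i) * b i| ≤ 3 ^ (a j - a i) * Real.exp (ρ₁ * t) := fun i j hij =>
    (hb i j hij).trans (by
      apply mul_le_mul_of_nonneg_left _ (by positivity)
      apply Real.exp_le_exp.2
      exact mul_le_mul_of_nonneg_right (min_le_left _ _) ht0.le)
  have hb2 : ∀ i j : Fin k, a i ≤ a j →
      |(b j : ℝ) - 3 ^ (a j - a i) * b i| ≤ 3 ^ (a j - a i) * Real.exp (ρ₂ * t) := fun i j hij =>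
    (hb i j hij).trans (by
      apply mul_le_mul_of_nonneg_left _ (by positivity)
      apply Real.exp_le_exp.2
      exact mul_le_mul_of_nonneg_right (min_le_right _ _) ht0.le)
  have hsp1 : ∀ i j : Fin k, ((a j : ℝ) - a i) * Real.log t ≤ ρ₁ * t := fun i j =>
    (hsp i j).trans (mul_le_mul_of_nonneg_right (min_le_left _ _) ht0.le)
  have hL1 : K₁ * 2 ^ t ≤ L := le_trans (Nat.mul_le_mul_right _ (by omega)) hL
  have hL2 : K₂ * 2 ^ t ≤ L := le_trans (Nat.mul_le_mul_right _ (by omega)) hL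
  have hL0 : (0 : ℝ) ≤ L := Nat.cast_nonneg _
  have key : ∀ G : (Fin k → ℝ) → ℝ, (∀ x, |G x| ≤ 1) → (∀ x y, |G x - G y| ≤ Λ * ∑ i, |x i - y i|) →
      |∑ n ∈ Ico M (M + L), (if Function.Injective (fun i => (Td d)^[t] (3 ^ a i * (u * n + s) + d * b i)) then
          G (fun i => (a i + ocd d t (3 ^ a i * (u * n + s) + d * b i) - t / 2) / √t) else 0) -
        NG (fun z => G (fun i => (z i - t / 2) / √t)) t (fun i => (a i : ℤ)) * L| ≤ ε * L := by
    intro G hG1 hGL
    have h3 := h1 t (by omega) a b hsp1 hb1 d hd u s hu M L hL1 (fun z => G (fun i => (z i - t / 2) / √t))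
      (fun z => hG1 _) (fun z w => by
        refine (hGL _ _).trans (le_of_eq ?_)
        rw [div_mul_eq_mul_div, mul_div_assoc, sum_div]
        congr 1
        apply sum_congr rfl
        intro i _
        rw [← sub_div, abs_div, abs_of_pos hst]
        congr 2
        ring)
    refine le_trans (le_of_eq ?_) h3
    congr 2
    apply sum_congr rfl
    intro n _
    unfold Pool.Agent.Q74.KP.Dn Pool.Agent.Q74.KP.Vd Pool.Agent.Q74.KP.Yd
    push_cast
    split_ifs
    · rw [one_mul]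
    · rw [zero_mul]
  refine ⟨key, fun S hS hdis => ?_, fun i j l hij hjl => ?_⟩
  · have h3 := (abs_le.1 (key (fun _ => 1) (fun _ => by rw [abs_one]) (fun x y => by
      rw [sub_self, abs_zero]
      exact mul_nonneg hΛ (sum_nonneg fun i _ => abs_nonneg _)))).2
    have hiter : ∀ (m : ℕ) (i : Fin k) (x : ℤ), x ∈ S i → (Td d)^[m] x ∈ S i := by
      intro m i
      induction m with
      | zero => intro x hx; exact hx
      | succ m ih =>
        intro x hx
        rw [Function.iterate_succ_apply]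
        exact ih _ ((hS i x).2 hx)
    rw [Pool.Agent.Q158.Pair.ncard_eq (fun n : ℤ => ∀ i, 3 ^ a i * (u * n + s) + d * b i ∈ S i)]
    have h4 : ((((Ico M (M + L)).filter (fun n : ℤ => ∀ i, 3 ^ a i * (u * n + s) + d * b i ∈ S i)).card : ℕ) : ℝ) ≤
        ∑ n ∈ Ico M (M + L), (if Function.Injective (fun i => (Td d)^[t] (3 ^ a i * (u * n + s) + d * b i)) then
          (1 : ℝ) else 0) := by
      rw [card_filter]
      push_cast
      apply sum_le_sum
      intro n _
      by_cases hn : ∀ i, 3 ^ a i * (u * n + s) + d * b i ∈ S i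
      · rw [if_pos hn, if_pos]
        intro i j hij
        by_contra hne
        have i1 := hiter t i _ (hn i)
        have i2 := hiter t j _ (hn j)
        simp only at hij
        rw [hij] at i1
        exact Set.disjoint_left.1 (hdis i j hne) i1 i2
      · rw [if_neg hn]
        split_ifs <;> norm_num
    linarith
  · have hmono : Monotone (![a i, a j, a l] : Fin 3 → ℕ) := by
      intro p q hpq
      fin_cases p <;> fin_cases q <;> simp at hpq ⊢ <;> omega
    have h3 := h2 t (by omega) ![a i, a j, a l] ![b i, b j, b l] hmono (fun p q hpq => by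
      have g1 := hb2 i j hij
      have g2 := hb2 j l hjl
      have g3 := hb2 i l (hij.trans hjl)
      fin_cases p <;> fin_cases q <;> simp at hpq ⊢ <;> assumption) d hd u s hu M L hL2
    simpa [Pool.Agent.Q74.KP.Vd, Pool.Agent.Q74.KP.Yd] using h3

end Pool.Agent.Results.MP_d02c56_nt.ArratiaFlow
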