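import Pool.Agent.Q74.BH.Asm
import Pool.Agent.Q129.BH.Lev

/-!
# Random points of short intervals beyond the horizon `log_2 L`

`T x = x / 2` for even `x` and `(3 x + 1) / 2` for odd `x`, on the integers; `c = 2 / log (4/3) = 6.95...`. The parities of the
first `log_2 L = 1.44... log L` terms of the trajectory of a random integer of an interval of length `L` are independent and
fair (Terras), and all the earlier results on the merging of neighbouring trajectories stop at this time. Here we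
choose an integer `x` at random in an ARBITRARY interval of length `L` and `k` random integers `x + h_i`, `0 ≤ h_i < H`, and find
the limit law of all the coincidences among the `k` trajectories at time `t`, and of their numbers of odd terms, for all
`1 ≤ H ≤ L` and all `t ≤ (1 - κ) (c log H + log_2 (L / H))`:

* up to the time `c log H` the trajectories are independent and distinct (and this is so in EVERY interval `[a, a + H)`);
* from then on they are coalescing walkers (Arratia flow), for another `log_2 (L / H)` steps.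

For `H = L^θ` the process can so be followed up to the time `(c θ + (1 - θ) / log 2) log L`, and as
`(1 - θ) / log 2 > 0` some of it is in the coalescing phase for EVERY `θ < 1`. (With times up to `log_2 L` only, nothing
can be said about `θ > log (4/3) / (2 log 2) = 0.207...`: up to the time `log_2 L` the trajectories do not meet.) So for every `θ < 1`:

* functions `F` constant along trajectories (the cycle which is reached, for instance) separate two random points of a random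
  interval of length `L^θ` with probability at most
  `(2 / π) arcsin √(2 θ log 2 / (2 θ log 2 + (1 - θ) log (4/3))) + o(1) < 1`;
* a positive proportion of the intervals of length `N^θ` has almost all its trajectories at ONE value at some time, and almost all
  intervals of this length have almost all their trajectories at a bounded number of values.

Proof. (I) The law at unit scale in every interval `[a, a + H)`, for `m ≤ (c - η) log H`: in total variation, the number `o` of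
odd steps up to the time `m` and the value `T^m x` are those of a parity word chosen at random and of a random integer `z` of
the window `[a 3^o / 2^m, (a + H) 3^o / 2^m)` in the class modulo `3^μ` which belongs to the word (`S_TV`; it is proved by
iteration of the 3-adic mixing of Syracuse random variables, in windows which shrink step by step, until the windows
have length `H^δ`). (II) The windows of `x` and of `x + w` are translates of each other up to their ends; so, after `m` steps, one may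
average over the translations of all `k` values by `3^(o_i - o) w`, `w` a multiple of `3^μ` up to `2^r Q`; this makes the
parities of the `k` new starting points those of `k` points `3^(a_i) w + b_i` with bounded differences of logarithmic size, `w` random
modulo `2^r`, to which the theorem for fixed starting points applies (Arratia flow; `Q74.KP`, `Q74.SF`). This needs
`2^m 2^r / 3^(m/2) ≤ L^(1 - κ)`, that is `m + r ≤ (1 - κ) (c log H + log_2 (L / H))` for `m = c log H`. (III) Two equal values have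
the same number of odd steps, but for rare exceptions (`S_Lev`).

Lemmas by helper14 (Step, TV), helper68 (CorT), helper129 (Lev), helper150 (Stage), helper153 (Num, CorK), helper154 (Up, LowK),
helper176 (Base), helper190 (FreeA, Merge, Cor), helper195 (ProdK, Mass, Binom), helper208 (Cls, Few), helper223 (Real), helper241
(Mix3, Shift), helper285 (Inner, Bits), and from the earlier projects helper6, 177, 210, 216, 225, 158.
-/

set_option autoImplicit false

namespace Pool.Agent.Results.MP_d02c56_nt.BeyondTheHorizon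

open Finset

/-- the 3x+1 map on the integers -/
def T (x : ℤ) : ℤ := if x % 2 = 0 then x / 2 else (3 * x + 1) / 2

/-- the number of the odd terms among `x, T x, ..., T^(t-1) x` -/
def odds (t : ℕ) (x : ℤ) : ℕ := ((range t).filter (fun i => T^[i] x % 2 = 1)).card

/-- free walkers: the expected value of `F` (places of the walkers) after `m` steps of independent walkers which
start at the places `a` and stay or move one to the right with probability `1 / 2` each at every step -/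
noncomputable def free {k : ℕ} (F : (Fin k → ℤ) → ℝ) : ℕ → (Fin k → ℤ) → ℝ
  | 0 => F
  | m + 1 => fun a => (∑ A : Finset (Fin k), free F m (fun i => a i + if i ∈ A then 1 else 0)) / 2 ^ k

/-- coalescing walkers: the expected value of `F` (places of the walkers) after `r` steps, if at every step each
of the occupied places is chosen with probability `1 / 2`, independently, and all the walkers at the chosen places
move one to the right -/
noncomputable def coal {k : ℕ} (F : (Fin k → ℤ) → ℝ) : ℕ → (Fin k → ℤ) → ℝ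
  | 0 => F
  | r + 1 => fun a => (∑ B ∈ (univ.image a).powerset, coal F r (fun i => a i + if a i ∈ B then 1 else 0)) /
      2 ^ (univ.image a).card

/-- the constant `2 / log (4/3)` -/
noncomputable def c : ℝ := 2 / Real.log (4 / 3)

/-- the free time `c log H`, but at most `t` -/
noncomputable def fr (t H : ℕ) : ℕ := min t ⌊c * Real.log H⌋₊

/-- the flow: `k` walkers start at `0`, are free for `fr t H` steps and coalesce at the remaining steps; the expected
value of `F` after all the `t` steps -/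
noncomputable def flow {k : ℕ} (F : (Fin k → ℤ) → ℝ) (t H : ℕ) : ℝ := free (coal F (t - fr t H)) (fr t H) 0

theorem T_eq : T = Pool.Agent.Q158.Pair.T := rfl

theorem odds_eq (t : ℕ) (x : ℤ) : odds t x = Pool.Agent.Q74.AR.oc t x := by
  rw [Pool.Agent.Q74.AR.oc_eq]
  rfl

theorem free_eq {k : ℕ} (F : (Fin k → ℤ) → ℝ) (m : ℕ) : free F m = Pool.Agent.Q74.SF.FR F m := by
  induction m with
  | zero => rfl
  | succ m ih =>
    funext a
    simp only [free, Pool.Agent.Q74.SF.FR, ih]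

theorem coal_eq {k : ℕ} (F : (Fin k → ℤ) → ℝ) (r : ℕ) : coal F r = Pool.Agent.Q74.SF.CG F r := by
  induction r with
  | zero => rfl
  | succ r ih =>
    funext a
    simp only [coal, Pool.Agent.Q74.SF.CG, ih]

theorem fr_eq (t H : ℕ) : fr t H = Pool.Agent.Q74.SF.fr t H := by
  rw [Pool.Agent.Q74.SF.fr_eq]
  rfl

theorem flow_eq {k : ℕ} (F : (Fin k → ℤ) → ℝ) (t H : ℕ) : flow F t H =
    Pool.Agent.Q74.SF.FR (Pool.Agent.Q74.SF.CG F (t - Pool.Agent.Q74.SF.fr t H)) (Pool.Agent.Q74.SF.fr t H) 0 := by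
  unfold flow
  rw [free_eq, coal_eq, fr_eq]

theorem hiter {F : ℤ → ℕ} (hF : ∀ x, F (T x) = F x) (m : ℕ) : ∀ x : ℤ, F (T^[m] x) = F x := by
  induction m with
  | zero => intro x; rfl
  | succ m ih =>
    intro x
    rw [Function.iterate_succ_apply, ih, hF]

open Classical in
theorem nc (H : ℕ) (P : ℕ → Prop) : ({h : ℕ | h < H ∧ P h}.ncard : ℝ) = (((range H).filter P).card : ℝ) := by
  rw [← Set.ncard_coe_finset]
  congr 2
  ext h
  simp

open Classical in
theorem ncz (a : ℤ) (N : ℕ) (P : ℤ → Prop) :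
    ({x : ℤ | a ≤ x ∧ x < a + N ∧ P x}.ncard : ℝ) = (((Ico a (a + (N : ℤ))).filter P).card : ℝ) := by
  rw [← Set.ncard_coe_finset]
  congr 2
  ext x
  simp [and_assoc]

theorem ncard_mono {a : ℤ} {N : ℕ} {P Q : ℤ → Prop} (h : ∀ x, P x → Q x) :
    ({x : ℤ | a ≤ x ∧ x < a + N ∧ P x}.ncard : ℝ) ≤ ({x : ℤ | a ≤ x ∧ x < a + N ∧ Q x}.ncard : ℝ) := by
  have hf : {x : ℤ | a ≤ x ∧ x < a + N ∧ Q x}.Finite :=
    (Finset.finite_toSet (Ico a (a + (N : ℤ)))).subset fun x hx => by
      rw [coe_Ico]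
      exact ⟨hx.1, hx.2.1⟩
  have hs : {x : ℤ | a ≤ x ∧ x < a + N ∧ P x} ⊆ {x : ℤ | a ≤ x ∧ x < a + N ∧ Q x} :=
    fun x hx => ⟨hx.1, hx.2.1, h x hx.2.2⟩
  exact_mod_cast Set.ncard_le_ncard hs hf

theorem ncard_monoN {H : ℕ} {P Q : ℕ → Prop} (h : ∀ x, P x → Q x) :
    ({x : ℕ | x < H ∧ P x}.ncard : ℝ) ≤ ({x : ℕ | x < H ∧ Q x}.ncard : ℝ) := by
  have hf : {x : ℕ | x < H ∧ Q x}.Finite := (Set.finite_Iio H).subset fun x hx => hx.1
  have hs : {x : ℕ | x < H ∧ P x} ⊆ {x : ℕ | x < H ∧ Q x} := fun x hx => ⟨hx.1, h x hx.2⟩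
  exact_mod_cast Set.ncard_le_ncard hs hf

open Classical in
theorem result :
    -- (1) independence in EVERY interval of `H` integers, up to the time `(1 - κ) c log H`
    (∀ (k : ℕ) (κ ε : ℝ), 0 < κ → 0 < ε → ∃ H₀ : ℕ, ∀ H : ℕ, H₀ ≤ H → ∀ t : ℕ, (t : ℝ) ≤ (1 - κ) * (c * Real.log H) →
      ∀ (a : ℤ) (F : (Fin k → ℤ) → ℝ), (∀ z, |F z| ≤ 1) →
      |(∑ h : Fin k → Fin H, if Function.Injective (fun i => T^[t] (a + ((h i : ℕ) : ℤ))) then
          F (fun i => odds t (a + ((h i : ℕ) : ℤ))) else 0) / (H : ℝ) ^ k - free F t 0| ≤ ε) ∧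
    (∀ (k : ℕ) (Λ κ ε : ℝ), 0 ≤ Λ → 0 < κ → 0 < ε → ∃ t₀ : ℕ, ∀ t : ℕ, t₀ ≤ t → ∀ H L : ℕ, 1 ≤ H → H ≤ L →
      (1 + κ) * t ≤ c * Real.log H + Real.logb 2 (L / H) → ∀ a : ℤ,
      -- (2) the law of all coincidences and all levels
      (∀ (π : Fin k → Fin k) (G : (Fin k → ℝ) → ℝ), (∀ x, |G x| ≤ 1) →
        (∀ x y, |G x - G y| ≤ Λ * ∑ i, |x i - y i|) →
        |(∑ x ∈ Ico a (a + L), ∑ h : Fin k → Fin H,
            (if ∀ i j, T^[t] (x + ((h i : ℕ) : ℤ)) = T^[t] (x + ((h j : ℕ) : ℤ)) ↔ π i = π j then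
              G (fun i => (odds t (x + ((h i : ℕ) : ℤ)) - t / 2) / √t) else 0)) / (L * (H : ℝ) ^ k) -
          flow (fun z => if ∀ i j, z i = z j ↔ π i = π j then G (fun i => (z i - t / 2) / √t) else 0) t H| ≤ ε) ∧
      -- (3) functions constant along trajectories: many values, one value
      (∀ F : ℤ → ℕ, (∀ x, F (T x) = F x) →
        (∑ x ∈ Ico a (a + L), ({h : Fin k → Fin H |
            Function.Injective (fun i => F (x + ((h i : ℕ) : ℤ)))}.ncard : ℝ)) / (L * (H : ℝ) ^ k) ≤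
          flow (fun z : Fin k → ℤ => if Function.Injective z then 1 else 0) t H + ε ∧
        flow (fun z : Fin k → ℤ => if ∀ i j, z i = z j then 1 else 0) t H - ε ≤
          (∑ x ∈ Ico a (a + L), ({h : Fin k → Fin H |
            ∀ i j, F (x + ((h i : ℕ) : ℤ)) = F (x + ((h j : ℕ) : ℤ))}.ncard : ℝ)) / (L * (H : ℝ) ^ k))) ∧
    -- (4) two walkers
    (∀ ε : ℝ, 0 < ε → ∃ t₀ : ℕ, ∀ t : ℕ, t₀ ≤ t → ∀ H : ℕ, 1 ≤ H →
      |flow (fun z : Fin 2 → ℤ => if z 0 = z 1 then 1 else 0) t H -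
        2 / Real.pi * Real.arccos (√(c * Real.log H / t))| ≤ ε) ∧
    -- (5) two points at distances less than `H ≤ L ^ θ`
    (∀ θ ε : ℝ, 0 ≤ θ → θ < 1 → 0 < ε → ∃ L₀ : ℕ, ∀ L : ℕ, L₀ ≤ L → ∀ H : ℕ, 1 ≤ H → (H : ℝ) ≤ (L : ℝ) ^ θ →
      ∀ (a : ℤ) (F : ℤ → ℕ), (∀ x, F (T x) = F x) →
      (∑ x ∈ Ico a (a + L), ({p : ℕ × ℕ | p.1 < H ∧ p.2 < H ∧ F (x + p.1) ≠ F (x + p.2)}.ncard : ℝ)) /
          (L * (H : ℝ) ^ 2) ≤
        2 / Real.pi * Real.arcsin (√(2 * θ * Real.log 2 / (2 * θ * Real.log 2 + (1 - θ) * Real.log (4 / 3)))) + ε) ∧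
    -- (6) a positive proportion of the intervals has almost all its trajectories at one value
    (∀ θ η : ℝ, 0 ≤ θ → θ < 1 → 0 < η → η < 1 → ∃ p : ℝ, 0 < p ∧ ∃ N₀ : ℕ, ∀ N : ℕ, N₀ ≤ N →
      ∀ H : ℕ, 1 ≤ H → (H : ℝ) ≤ (N : ℝ) ^ θ → ∃ t : ℕ, ∀ a : ℤ,
      p * N ≤ ({x : ℤ | a ≤ x ∧ x < a + N ∧ ∃ v : ℤ,
        (1 - η) * H ≤ ({h : ℕ | h < H ∧ T^[t] (x + h) = v}.ncard : ℝ)}.ncard : ℝ) ∧
      ∀ F : ℤ → ℕ, (∀ x, F (T x) = F x) → p * N ≤ ({x : ℤ | a ≤ x ∧ x < a + N ∧ ∃ v : ℕ,
        (1 - η) * H ≤ ({h : ℕ | h < H ∧ F (x + h) = v}.ncard : ℝ)}.ncard : ℝ)) ∧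
    -- (7) almost all intervals have almost all their trajectories at few values
    (∀ θ ε η : ℝ, 0 ≤ θ → θ < 1 → 0 < ε → 0 < η → η < 1 → ∃ K N₀ : ℕ, ∀ N : ℕ, N₀ ≤ N →
      ∀ H : ℕ, 1 ≤ H → (H : ℝ) ≤ (N : ℝ) ^ θ → ∃ t : ℕ, ∀ a : ℤ,
      (1 - ε) * N ≤ ({x : ℤ | a ≤ x ∧ x < a + N ∧ ∃ V : Finset ℤ, V.card ≤ K ∧
        (1 - η) * H ≤ ({h : ℕ | h < H ∧ T^[t] (x + h) ∈ V}.ncard : ℝ)}.ncard : ℝ) ∧
      ∀ F : ℤ → ℕ, (∀ x, F (T x) = F x) → (1 - ε) * N ≤ ({x : ℤ | a ≤ x ∧ x < a + N ∧ ∃ V : Finset ℕ, V.card ≤ K ∧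
        (1 - η) * H ≤ ({h : ℕ | h < H ∧ F (x + h) ∈ V}.ncard : ℝ)}.ncard : ℝ)) := by
  have hFu : Pool.Agent.Q74.BH.S_Full := Pool.Agent.Q74.BH.fullX
  have hMa : Pool.Agent.Q74.BH.S_Main := Pool.Agent.Q74.BH.mainX
  have hFr : Pool.Agent.Q74.BH.S_FreeA := Pool.Agent.Q74.BH.freeX
  have hLe : Pool.Agent.Q74.BH.S_Lev := (Pool.Agent.Q129.BH.lev hFr)
  refine ⟨?_, ?_, ?_, ?_, ?_, ?_⟩
  · intro k κ ε hκ hε
    obtain ⟨H₀, h0⟩ := hFr k κ ε hκ hε
    refine ⟨H₀, fun H hH t ht a F hF => ?_⟩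
    have h1 := h0 H hH t ht a F hF
    rw [free_eq, Pool.Agent.Q74.SF.FR_act]
    refine le_trans (le_of_eq ?_) h1
    congr 3
    apply sum_congr rfl
    intro h _
    simp only [Pool.Agent.Q74.BH.V0, odds_eq, T_eq]
  · intro k Λ κ ε hΛ hκ hε
    obtain ⟨t₁, h1⟩ := Pool.Agent.Q74.BH.flow_key hFu hLe k hΛ hκ hε
    obtain ⟨t₂, h2⟩ := Pool.Agent.Q74.BH.flow_inv hFu hLe k hκ hε
    refine ⟨max t₁ t₂, fun t ht H L hH hHL hhor a => ⟨fun π G hG hGL => ?_, fun F hF => ?_⟩⟩
    · have h3 := h1 t ((le_max_left _ _).trans ht) H L hH hHL hhor a π G hG hGL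
      rw [flow_eq]
      simp only [odds_eq, T_eq]
      exact h3
    · have h3 := h2 t ((le_max_right _ _).trans ht) H L hH hHL hhor a F hF
      rw [flow_eq, flow_eq]
      exact h3
  · intro ε hε
    obtain ⟨t₀, h0⟩ := Pool.Agent.Q74.BH.two ε hε
    refine ⟨t₀, fun t ht H hH => ?_⟩
    have h1 := h0 t ht H hH
    rw [flow_eq]
    have e : c * Real.log H / t = 2 * Real.log H / (t * Real.log (4 / 3)) := by
      unfold c
      rw [div_mul_eq_mul_div, div_div, mul_comm (Real.log (4 / 3)) (t : ℝ)]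
    rw [e]
    convert h1 using 5
  · exact Pool.Agent.Q74.BH.two_inv hFu hLe Pool.Agent.Q74.BH.two
  · intro θ η hθ0 hθ1 hη hη1
    obtain ⟨p, hp, N₀, h0⟩ := Pool.Agent.Q68.BH.CorT.corT hMa Pool.Agent.Q190.BH.Merge.merge θ η hθ0 hθ1 hη hη1
    refine ⟨p, hp, N₀, fun N hN H hH hHN => ?_⟩
    obtain ⟨t, h1⟩ := h0 N hN H hH hHN
    refine ⟨t, fun a => ?_⟩
    have h2 : p * N ≤ ({x : ℤ | a ≤ x ∧ x < a + N ∧ ∃ v : ℤ,
        (1 - η) * H ≤ ({h : ℕ | h < H ∧ T^[t] (x + h) = v}.ncard : ℝ)}.ncard : ℝ) := by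
      rw [ncz]
      simp only [nc, T_eq]
      convert h1 a
    refine ⟨h2, fun F hF => h2.trans (ncard_mono fun x hx => ?_)⟩
    obtain ⟨v, hv⟩ := hx
    refine ⟨F v, hv.trans (ncard_monoN fun h hh => ?_)⟩
    rw [← hh, hiter hF]
  · intro θ ε η hθ0 hθ1 hε hη hη1
    obtain ⟨K, N₀, h0⟩ := Pool.Agent.Q153.BH.CorK.corK hMa Pool.Agent.Q153.BH.num θ ε η hθ0 hθ1 hε hη hη1
    refine ⟨K, N₀, fun N hN H hH hHN => ?_⟩
    obtain ⟨t, h1⟩ := h0 N hN H hH hHN
    refine ⟨t, fun a => ?_⟩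
    have h2 : (1 - ε) * N ≤ ({x : ℤ | a ≤ x ∧ x < a + N ∧ ∃ V : Finset ℤ, V.card ≤ K ∧
        (1 - η) * H ≤ ({h : ℕ | h < H ∧ T^[t] (x + h) ∈ V}.ncard : ℝ)}.ncard : ℝ) := by
      rw [ncz]
      simp only [nc, T_eq]
      convert h1 a
    refine ⟨h2, fun F hF => h2.trans (ncard_mono fun x hx => ?_)⟩
    obtain ⟨V, hVK, hV⟩ := hx
    refine ⟨V.image F, card_image_le.trans hVK, hV.trans (ncard_monoN fun h hh => ?_)⟩
    rw [← hiter hF t (x + h)]
    exact mem_image_of_mem F hh

end Pool.Agent.Results.MP_d02c56_nt.BeyondTheHorizon
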