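import Pool.Agent.Q74.BT.FinB
import Pool.Agent.Q74.BT.Stm4
import Pool.Agent.Q153.BT.Kap
import Pool.Agent.Q153.BT.Top
import Pool.Agent.Q150.BT.Mean
import Pool.Agent.Q195.BT.Blk
import Pool.Agent.Q195.BT.Up
import Pool.Agent.Q209.BT.Low
import Pool.Agent.Q38.BT.Lo
import Pool.Agent.Q38.BT.Bot
import Pool.Agent.Q182.BT.Walk
import Pool.Agent.Q92.BT.CwMean
import Pool.Agent.Q92.BT.CwNet
import Pool.Agent.Q26.BT.TopTwo
import Pool.Agent.Q26.BT.Full
import Pool.Agent.Q14.BT.Net
import Pool.Agent.Q14.BT.NetLaw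
import Pool.Agent.Q177.BT.WalkE
import Pool.Agent.Q177.BT.MeanPin
import Pool.Agent.Q261.BT.MeanUp
import Pool.Agent.Q151.BT.LipF
import Pool.Agent.Q151.BT.OffStep
import Pool.Agent.Q151.BT.TightW
import Pool.Agent.Q182.BT.FamM
import Pool.Agent.Q95.BT.SegW
import Pool.Agent.Q234.BT.Web

/-!
# The trajectories of `L` consecutive integers under the 3x+1 map form a coalescing flow

`T x = x / 2`, `(3 x + 1) / 2` on the integers. The level of a trajectory at the time `s` is the number of its odd terms before the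
time `s`. Let `γ = 41.677...` be the constant of the repeated random walk model of Lagarias and Weiss and
`D = γ (log 2/log 3 - 1/2) - 1/log 3 + 1/(2 log 2) = 5.26...`. Let `n` be a random integer in any interval of length at least `K 2^t`,
`L ≥ 1`, `log L ≤ M₀ √t`. As `t → ∞`:

* the set of the levels of ALL the trajectories of `n, n+1, ..., n+L-1` at several times `s ∈ [δ t, t]` has jointly the law of the set of
  the places occupied by coalescing walkers started from all places of the segment `[-log L/(2 log 2), (D - 1/(2 log 2)) log L]`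
  (asymptotically coalescing Brownian motions from a segment, that is the Brownian web over the segment), and two of these
  trajectories have merged by the time `s` if and only if they have the same level, with probability `1 - o(1)`;
* the probability that `T^t` is not constant on the block `n, n+1, ..., n+L-1` is `erf (D log L/√t) + o(1)`, uniformly in all `L ≥ 1`, and
  the mean number of values of `T^t` on the block is `1 + (2/√π) D log L/√t + o(1)`;
* every function which is constant along trajectories (for instance the cycle reached) is constant on the block with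
  probability at least `1 - erf (D log L/√(log₂ W)) - o(1)`, for `n` in any interval of `W` integers.

Proof. The trajectories of the block spread out, until the time `γ log L`, between the level of the integers divisible by a power of
2 of size `L` (displacement `-log L/(2 log 2)`, at time `log₂ L`) and the level of the slowest trajectories (displacement
`γ (log 2/log 3 - 1/2) log L - log L/log 3`, at time `γ log L`), which exist in every block because of the lower bound for the predecessor
trees of the starting library (quenched = annealed for backward paths). Afterwards there are trajectories at all levels between the two,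
and they move as coalescing walkers (law of coalescence of finitely many trajectories with small offsets: project SF); the mean number
of values shows that nothing else is left.

Lemmas by helpers 153, 150, 195, 209, 38, 16, 182, 92, 26, 14, 177, 261, 151, 95, 234.
-/

set_option autoImplicit false

namespace Pool.Agent.Results.MP_d02c56_nt.BlockFlow

open Finset

/-- the 3x+1 map on the integers -/
def T (x : ℤ) : ℤ := if x % 2 = 0 then x / 2 else (3 * x + 1) / 2

/-- the level of the trajectory of `x` at the time `s`: the number of odd terms among `x, T x, ..., T^(s-1) x` -/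
def odds (s : ℕ) (x : ℤ) : ℕ := ((range s).filter (fun i => T^[i] x % 2 = 1)).card

/-- the set of the levels of the trajectories of `n, n+1, ..., n+L-1` at the time `s` -/
noncomputable def levels (L s : ℕ) (n : ℤ) : Finset ℤ := (range L).image (fun j : ℕ => (odds s (n + j) : ℤ))

/-- the number of different integers among `T^t n, T^t (n+1), ..., T^t (n+L-1)` -/
noncomputable def values (L t : ℕ) (n : ℤ) : ℕ := {y : ℤ | ∃ j : ℕ, j < L ∧ y = T^[t] (n + j)}.ncard

/-- coalescing walkers: the expected value of `F` (occupied places) after `r` steps, if at every step each of the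
occupied places is chosen with probability `1 / 2`, independently, and the walkers at the chosen places move one to the
right, and walkers which meet stay together -/
noncomputable def coal (F : Finset ℤ → ℝ) : ℕ → Finset ℤ → ℝ
  | 0 => F
  | r + 1 => fun A => (∑ B ∈ A.powerset, coal F r (A \ B ∪ B.image (· + 1))) / 2 ^ A.card

/-- an observation `(s, φ, h)`: wait `s` steps, then evaluate the test function `φ (#A) ∏_{x ∈ A} h x` of the set `A` of
occupied places. (For `φ = 1` and `h` near the indicator function of the complement of a set `I` this is the event that no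
place of `I` is occupied; the probabilities of such events determine the law of a random set.) -/
abbrev Observation : Type := ℕ × (ℕ → ℝ) × (ℤ → ℝ)

/-- the value of the test function of an observation at a set -/
noncomputable def test (e : Observation) (A : Finset ℤ) : ℝ := e.2.1 A.card * ∏ x ∈ A, e.2.2 x

/-- the product of successive observations of a path `S` of sets, starting from the time `u` -/
noncomputable def along (S : ℕ → Finset ℤ) : ℕ → List Observation → ℝ
  | _, [] => 1
  | u, e :: l => test e (S (u + e.1)) * along S (u + e.1) l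

/-- the expected value of the product of successive observations of coalescing walkers started from the places of a set -/
noncomputable def walkers : List Observation → Finset ℤ → ℝ
  | [] => fun _ => 1
  | e :: l => coal (fun A => test e A * walkers l A) e.1

/-- admissible lists of observations up to the time `t`: at most `m`, waiting times at least `δ t` and of sum at most `t`, test functions bounded by `1`,
with Lipschitz constant `Λ` for distances in units of `√t` -/
def Admissible (m : ℕ) (Λ δ : ℝ) (t : ℕ) (l : List Observation) : Prop :=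
  l.length ≤ m ∧ (l.map Prod.fst).sum ≤ t ∧ ∀ e ∈ l, δ * t ≤ (e.1 : ℝ) ∧ (∀ x, |e.2.1 x| ≤ 1) ∧ (∀ x, |e.2.2 x| ≤ 1) ∧
    ∀ x y : ℤ, |e.2.2 x - e.2.2 y| ≤ Λ * (|(x : ℝ) - y| / √t)

/-- `g(a) = sup_θ (θ a - log (½ (2^θ + (2/3)^θ)))`, the rate function of the repeated random walk model -/
noncomputable def g (a : ℝ) : ℝ :=
  ⨆ θ : ℝ, (θ * a - Real.log ((1 / 2) * ((2 : ℝ) ^ θ + (2 / 3 : ℝ) ^ θ)))

/-- the error function -/
noncomputable def Erf (x : ℝ) : ℝ := 2 / √Real.pi * ∫ y in (0 : ℝ)..x, Real.exp (-y ^ 2)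

theorem coal_eq (F : Finset ℤ → ℝ) (r : ℕ) : coal F r = Pool.Agent.Q74.BT.cF F r := by
  induction r with
  | zero => rfl
  | succ r ih => funext A; simp only [coal, Pool.Agent.Q74.BT.cF, ih]

theorem walkers_eq (l : List Observation) : walkers l = Pool.Agent.Q74.BT.MW l := by
  induction l with
  | nil => rfl
  | cons e l ih =>
    simp only [walkers, Pool.Agent.Q74.BT.MW, coal_eq, ih]
    rfl

theorem along_eq (S : ℕ → Finset ℤ) (l : List Observation) : ∀ u : ℕ, along S u l = Pool.Agent.Q74.BT.PW S u l := by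
  induction l with
  | nil => intro u; rfl
  | cons e l ih =>
    intro u
    simp only [along, Pool.Agent.Q74.BT.PW, ih]
    rfl

theorem odds_eq (s : ℕ) (x : ℤ) : odds s x = Pool.Agent.Q74.AR.oc s x := (Pool.Agent.Q74.AR.oc_eq s x).symm

theorem levels_eq (L s : ℕ) (n : ℤ) : levels L s n = Pool.Agent.Q74.BT.LS L s n := by
  unfold levels Pool.Agent.Q74.BT.LS
  simp only [odds_eq]

theorem values_eq (L t : ℕ) (n : ℤ) : values L t n = Pool.Agent.Q74.BT.Vn L t n := by
  unfold values Pool.Agent.Q74.BT.Vn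
  rw [← Set.ncard_coe_finset]
  congr 1
  ext y
  simp only [Set.mem_ofPred_eq, coe_image, Set.mem_image, mem_coe, mem_range]
  constructor
  · rintro ⟨j, h, rfl⟩; exact ⟨j, h, rfl⟩
  · rintro ⟨j, h, rfl⟩; exact ⟨j, h, rfl⟩

theorem result : ∃ γ D : ℝ, 41.6776 < γ ∧ γ < 41.6777 ∧ γ * g (1 / γ) = 1 ∧
    (∀ γ' : ℝ, γ' > ((1 / 2) * Real.log (4 / 3))⁻¹ → γ' * g (1 / γ') = 1 → γ' = γ) ∧
    D = γ * (Real.log 2 / Real.log 3 - 1 / 2) - 1 / Real.log 3 + 1 / (2 * Real.log 2) ∧ 5.26 < D ∧ D < 5.27 ∧
    -- (1) all the trajectories of a block, as a flow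
    (∀ (m : ℕ) (M₀ Λ δ ε : ℝ), 0 < M₀ → 0 ≤ Λ → 0 < δ → 0 < ε → ∃ t₀ K : ℕ, ∀ t : ℕ, t₀ ≤ t →
      ∀ L : ℕ, 1 ≤ L → Real.log L ≤ M₀ * √t → ∀ (M : ℤ) (W : ℕ), K * 2 ^ t ≤ W →
      (∀ l : List Observation, Admissible m Λ δ t l →
        |∑ n ∈ Ico M (M + W), along (fun s => levels L s n) 0 l -
          walkers l (Icc (-⌊Real.log L / (2 * Real.log 2)⌋) ⌊(D - 1 / (2 * Real.log 2)) * Real.log L⌋) * W| ≤ ε * W) ∧
      ∀ s : ℕ, δ * t ≤ s → s ≤ t → ({n : ℤ | M ≤ n ∧ n < M + W ∧ ∃ i j : ℕ, i < L ∧ j < L ∧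
        ¬ (T^[s] (n + i) = T^[s] (n + j) ↔ odds s (n + i) = odds s (n + j))}.ncard : ℝ) ≤ ε * W) ∧
    -- (2) the merging time of a block
    (∀ ε : ℝ, 0 < ε → ∃ t₀ K : ℕ, ∀ t : ℕ, t₀ ≤ t → ∀ L : ℕ, 1 ≤ L → ∀ (M : ℤ) (W : ℕ), K * 2 ^ t ≤ W →
      |({n : ℤ | M ≤ n ∧ n < M + W ∧ ∃ i j : ℕ, i < L ∧ j < L ∧ T^[t] (n + i) ≠ T^[t] (n + j)}.ncard : ℝ) -
        Erf (D * Real.log L / √t) * W| ≤ ε * W) ∧
    -- (3) the mean number of values
    (∀ M₀ ε : ℝ, 0 < M₀ → 0 < ε → ∃ t₀ K : ℕ, ∀ t : ℕ, t₀ ≤ t → ∀ L : ℕ, 1 ≤ L → Real.log L ≤ M₀ * √t →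
      ∀ (M : ℤ) (W : ℕ), K * 2 ^ t ≤ W →
      |∑ n ∈ Ico M (M + W), (values L t n : ℝ) - (1 + 2 / √Real.pi * (D * Real.log L / √t)) * W| ≤ ε * W) ∧
    -- (4) functions constant along trajectories
    (∀ ε : ℝ, 0 < ε → ∃ W₀ : ℕ, ∀ W : ℕ, W₀ ≤ W → ∀ (L : ℕ) (M : ℤ), 1 ≤ L → ∀ F : ℤ → ℤ, (∀ x, F (T x) = F x) →
      ({n : ℤ | M ≤ n ∧ n < M + W ∧ ∃ i j : ℕ, i < L ∧ j < L ∧ F (n + i) ≠ F (n + j)}.ncard : ℝ) ≤
        (Erf (D * Real.log L / √(Real.logb 2 W)) + ε) * W) := by
  have hkap := Pool.Agent.Q153.BT.kap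
  have hpot := Pool.Agent.Q150.BT.pot
  have hmean := Pool.Agent.Q150.BT.mean hkap hpot Pool.Agent.Q150.BT.tree
  have htopA := _root_.Q209.BT.topAll Pool.Agent.Q195.BT.blk
  have htop := Pool.Agent.Q153.BT.top
  have hbot := Pool.Agent.Q38.BT.bot
  have hup := Pool.Agent.Q195.BT.up hkap hpot hmean htop hbot (Pool.Agent.Q182.BT.walk hmean) Pool.Agent.Q16.BT.pin
  have hlo := Pool.Agent.Q38.BT.lo htopA
  have hcw := Pool.Agent.Q92.BT.cwMean
  have hnet := Pool.Agent.Q14.BT.net (Pool.Agent.Q26.BT.topTwo htopA)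
  have hlaw := Pool.Agent.Q14.BT.netLaw hcw (Pool.Agent.Q92.BT.cwNet hcw) hnet
  have hmu := Pool.Agent.Q261.BT.meanUp hkap hpot hmean htop hbot (Pool.Agent.Q177.BT.walkE hmean)
    Pool.Agent.Q177.BT.t_MeanPin
  have hfull := Pool.Agent.Q26.BT.full hcw hmean hmu hlaw
  have hweb := Pool.Agent.Q234.BT.web hcw hmean (Pool.Agent.Q182.BT.FamM.famM Pool.Agent.Q151.BT.lipF Pool.Agent.Q151.BT.offStep)
    (Pool.Agent.Q95.BT.segW hcw) (Pool.Agent.Q151.BT.tightW hcw hnet hmu)
  obtain ⟨γ, hγ, _, h1, h2⟩ := Pool.Agent.Q74.BT.exists_IsG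
  refine ⟨γ, Pool.Agent.Q74.BT.DD γ, hγ.1, hγ.2.1, h1, h2, Pool.Agent.Q74.BT.DD_eq hγ,
    (Pool.Agent.Q74.BT.DD_bounds hγ).1, (Pool.Agent.Q74.BT.DD_bounds hγ).2, fun m M₀ Λ δ ε hM hΛ hδ hε => ?_,
    fun ε hε => Pool.Agent.Q74.BT.law hup hlo hγ hε, fun M₀ ε hM hε => ?_,
    fun ε hε => Pool.Agent.Q74.BT.inv hup hlo hγ hε⟩
  · obtain ⟨t₀, K, h⟩ := hweb γ hγ m M₀ Λ δ ε hM hΛ hδ hε
    refine ⟨t₀, K, fun t ht L hL hlog M W hW => ?_⟩
    obtain ⟨g1, g2⟩ := h t ht L hL hlog M W hW
    constructor
    · intro l hl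
      obtain ⟨hl1, hl2, hl3⟩ := hl
      have h3 := g1 l hl1 (fun e he => ?_) hl2
      · simp only [along_eq, levels_eq, walkers_eq]
        exact h3
      · obtain ⟨k1, k2, k3, k4⟩ := hl3 e he
        refine ⟨k1, k2, k3, fun x y => (k4 x y).trans (le_of_eq ?_)⟩
        ring
    · intro s hs1 hs2
      simp only [odds_eq]
      exact g2 s hs1 hs2
  · obtain ⟨t₀, K, h⟩ := hfull γ hγ M₀ ε hM hε
    refine ⟨t₀, K, fun t ht L hL hlog M W hW => ?_⟩
    simp only [values_eq]
    exact (h t ht L hL hlog M W hW).2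

end Pool.Agent.Results.MP_d02c56_nt.BlockFlow
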