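import Pool.Agent.Q74.BT.FinV
import Pool.Agent.Q153.BT.Kap
import Pool.Agent.Q153.BT.Top
import Pool.Agent.Q150.BT.Mean
import Pool.Agent.Q195.BT.Blk
import Pool.Agent.Q195.BT.Up
import Pool.Agent.Q209.BT.Low
import Pool.Agent.Q38.BT.Lo
import Pool.Agent.Q38.BT.Bot
import Pool.Agent.Q92.BT.CwMean
import Pool.Agent.Q92.BT.CwNet
import Pool.Agent.Q26.BT.TopTwo
import Pool.Agent.Q26.BT.Full
import Pool.Agent.Q14.BT.Net
import Pool.Agent.Q14.BT.NetLaw
import Pool.Agent.Q177.BT.WalkE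
import Pool.Agent.Q177.BT.MeanPin
import Pool.Agent.Q177.BT.MeanAll
import Pool.Agent.Q261.BT.MeanUp
import Pool.Agent.Q151.BT.LipF
import Pool.Agent.Q211.BT.LDup
import Pool.Agent.Q176.BT.BM
import Pool.Agent.Q275.BT.Mono
import Pool.Agent.Q144.BT.NetE
import Pool.Agent.Q144.BT.Adj
import Pool.Agent.Q166.BT.Far
import Pool.Agent.Q166.BT.LLN
import Pool.Agent.Q223.BT.LowM
import Pool.Agent.Q96.BT.PotW
import Pool.Agent.Q96.BT.UpS
import Pool.Agent.Q96.BT.LowP
import Pool.Agent.Q137.BT.CwFar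
import Pool.Agent.Q137.BT.CovL
import Pool.Agent.Q137.BT.UpWin
import Pool.Agent.Q137.BT.UpM

/-!
# The number of values of `T^t` on `e^(λt)` consecutive integers: law of large numbers and phase transition at `λ = 1/γ`

`T x = x / 2`, `(3 x + 1) / 2` on the integers, `V(L,t,n)` the number of different values of `T^t` on the block
`n, n+1, ..., n+L-1`, `γ = 41.677...` the constant of the repeated random walk model of Lagarias and Weiss, `κ = log 2/log 3 - 1/2`.

* For `γ log L ≤ (1-ε) t` the mean of `V(L,t,n)` over the `n` of any interval of at least `K 2^t` integers is `(1 + o(1)) V₀`,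
  `V₀ = 1 + (4κ/√π) (√(t - log L/log 2) - √(t - γ log L))`, uniformly in `L ≥ 1`.
* If also `log L ≥ M √t`, `M` large, then `V(L,t,n)` is `(1 + o(1)) V₀` for all but a small proportion of the `n` (law of large numbers).
* So for `L = ⌊e^(λt)⌋` with `0 < λ < 1/γ` the number of values is `(c(λ) + o(1)) √t`, in mean and in probability,
  `c(λ) = (4κ/√π) (√(1 - λ/log 2) - √(1 - γλ))`, while for `λ > 1/γ` it is exponentially large for EVERY block.

Proof. Below the threshold the surviving trajectories are coalescing walkers born on a space-time line: the trajectories which contract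
(`3^(odd terms) L ≤ 2^time`) for the first time at the time `k`, `log L/log 2 ≤ k ≤ γ log L`, have at that time all the same displacement `κ k - log L/log 3`
(up to constants), and there are such trajectories in every block and for every `k` (lower bound for the predecessor trees of the
starting library). The walkers born at about the time `k` contribute `(2κ/√π) dk/√(t-k)` to the number of values at the time `t`.
Upper bound: potential of the newly contracted trajectories and the comparison of trees of trajectories with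
walkers; lower bound: Bonferroni for super-blocks of walkers; law of large numbers: second moments for groups of
walkers at moderate distance, whose coalescences are asymptotically independent.

Lemmas by helpers 137, 96, 144, 223, 166, 177, 153, 150, 195, 209, 38, 92, 26, 14, 261, 151, 211, 176, 275.
-/

set_option autoImplicit false

namespace Pool.Agent.Results.MP_d02c56_nt.PhaseTransition

open Finset

/-- the 3x+1 map on the integers -/
def T (x : ℤ) : ℤ := if x % 2 = 0 then x / 2 else (3 * x + 1) / 2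

/-- the number of different integers among `T^t n, T^t (n+1), ..., T^t (n+L-1)` -/
noncomputable def values (L t : ℕ) (n : ℤ) : ℕ := {y : ℤ | ∃ j : ℕ, j < L ∧ y = T^[t] (n + j)}.ncard

/-- `g(a) = sup_θ (θ a - log (½ (2^θ + (2/3)^θ)))`, the rate function of the repeated random walk model -/
noncomputable def g (a : ℝ) : ℝ :=
  ⨆ θ : ℝ, (θ * a - Real.log ((1 / 2) * ((2 : ℝ) ^ θ + (2 / 3 : ℝ) ^ θ)))

/-- `κ = 0.1309...` -/
noncomputable def κ : ℝ := Real.log 2 / Real.log 3 - 1 / 2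

/-- the main term `V₀` -/
noncomputable def main (γ : ℝ) (L t : ℕ) : ℝ :=
  1 + 4 * κ / √Real.pi * (√(t - Real.log L / Real.log 2) - √(t - γ * Real.log L))

theorem values_eq (L t : ℕ) (n : ℤ) : values L t n = Pool.Agent.Q74.BT.Vn L t n := by
  unfold values Pool.Agent.Q74.BT.Vn
  rw [← Set.ncard_coe_finset]
  congr 1
  ext y
  simp only [Set.mem_ofPred_eq, coe_image, Set.mem_image, mem_coe, mem_range]
  constructor
  · rintro ⟨j, h, rfl⟩; exact ⟨j, h, rfl⟩
  · rintro ⟨j, h, rfl⟩; exact ⟨j, h, rfl⟩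

theorem result : ∃ γ : ℝ, 41.6776 < γ ∧ γ < 41.6777 ∧ γ * g (1 / γ) = 1 ∧
    (∀ γ' : ℝ, γ' > ((1 / 2) * Real.log (4 / 3))⁻¹ → γ' * g (1 / γ') = 1 → γ' = γ) ∧
    -- (1) the mean number of values, for all `L` below the threshold
    (∀ ε : ℝ, 0 < ε → ∃ t₀ K : ℕ, ∀ t : ℕ, t₀ ≤ t → ∀ L : ℕ, 1 ≤ L → γ * Real.log L ≤ (1 - ε) * t →
      ∀ (M : ℤ) (W : ℕ), K * 2 ^ t ≤ W →
      |∑ n ∈ Ico M (M + W), (values L t n : ℝ) - main γ L t * W| ≤ ε * (main γ L t * W)) ∧
    -- (2) law of large numbers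
    (∀ ε : ℝ, 0 < ε → ∃ M₀ : ℝ, 0 < M₀ ∧ ∃ t₀ K : ℕ, ∀ t : ℕ, t₀ ≤ t → ∀ L : ℕ, 1 ≤ L →
      M₀ * √t ≤ Real.log L → γ * Real.log L ≤ (1 - ε) * t → ∀ (M : ℤ) (W : ℕ), K * 2 ^ t ≤ W →
      ({n : ℤ | M ≤ n ∧ n < M + W ∧ ε * main γ L t < |(values L t n : ℝ) - main γ L t|}.ncard : ℝ) ≤ ε * W) ∧
    -- (3) `L = ⌊e^(λt)⌋` below the threshold
    (∀ l : ℝ, 0 < l → l < 1 / γ → ∀ ε : ℝ, 0 < ε → ∃ t₀ K : ℕ, ∀ t : ℕ, t₀ ≤ t → ∀ (M : ℤ) (W : ℕ), K * 2 ^ t ≤ W →
      |∑ n ∈ Ico M (M + W), (values ⌊Real.exp (l * t)⌋₊ t n : ℝ) -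
        4 * κ / √Real.pi * (√(1 - l / Real.log 2) - √(1 - γ * l)) * √t * W| ≤ ε * √t * W ∧
      ({n : ℤ | M ≤ n ∧ n < M + W ∧ ε * √t < |(values ⌊Real.exp (l * t)⌋₊ t n : ℝ) -
        4 * κ / √Real.pi * (√(1 - l / Real.log 2) - √(1 - γ * l)) * √t|}.ncard : ℝ) ≤ ε * W) ∧
    -- (4) `L = ⌊e^(λt)⌋` above the threshold
    (∀ l : ℝ, 1 / γ < l → ∃ c : ℝ, 0 < c ∧ ∃ t₀ : ℕ, ∀ t : ℕ, t₀ ≤ t → ∀ n : ℤ,
      Real.exp (c * t) ≤ values ⌊Real.exp (l * t)⌋₊ t n) := by
  have hkap := Pool.Agent.Q153.BT.kap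
  have hpot := Pool.Agent.Q150.BT.pot
  have hmean := Pool.Agent.Q150.BT.mean hkap hpot Pool.Agent.Q150.BT.tree
  have htopA := _root_.Q209.BT.topAll Pool.Agent.Q195.BT.blk
  have hlowA := _root_.Q209.BT.lowAll Pool.Agent.Q195.BT.blk
  have htop := Pool.Agent.Q153.BT.top
  have hbot := Pool.Agent.Q38.BT.bot
  have hcw := Pool.Agent.Q92.BT.cwMean
  have hnet := Pool.Agent.Q14.BT.net (Pool.Agent.Q26.BT.topTwo htopA)
  have hlaw := Pool.Agent.Q14.BT.netLaw hcw (Pool.Agent.Q92.BT.cwNet hcw) hnet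
  have hwalk := Pool.Agent.Q177.BT.walkE hmean
  have hmu := Pool.Agent.Q261.BT.meanUp hkap hpot hmean htop hbot hwalk Pool.Agent.Q177.BT.t_MeanPin
  have hfull := Pool.Agent.Q26.BT.full hcw hmean hmu hlaw
  have hm := Pool.Agent.Q275.BT.mono
  have hne := _root_.Q144.BT.netE Pool.Agent.Q176.BT.bm
  have hadj := _root_.Q144.BT.adj
  have hfar := Pool.Agent.Q166.BT.far
  have hlowM := Pool.Agent.Q223.BT.lowM hne hadj hfar
  have hupWin := Pool.Agent.Q137.BT.upWin hkap Pool.Agent.Q96.BT.potW Pool.Agent.Q150.BT.tree Pool.Agent.Q177.BT.t_MeanPin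
  have hupM := Pool.Agent.Q137.BT.upM hupWin htop Pool.Agent.Q211.BT.ldup
  have hupS := Pool.Agent.Q96.BT.upS hkap hpot hmean htop hbot hwalk Pool.Agent.Q177.BT.t_MeanPin
  have hall := Pool.Agent.Q177.BT.meanAll hm hfull hlowM hupM hupS
  have hcov := Pool.Agent.Q137.BT.covL Pool.Agent.Q137.BT.cwFar Pool.Agent.Q151.BT.lipF
  have hlln := Pool.Agent.Q166.BT.lln hall (Pool.Agent.Q96.BT.lowP hne hadj hfar hcov)
  obtain ⟨γ, hγ, _, h1, h2⟩ := Pool.Agent.Q74.BT.exists_IsG
  refine ⟨γ, hγ.1, hγ.2.1, h1, h2, ?_, ?_, ?_, ?_⟩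
  · simp only [values_eq]
    exact hall γ hγ
  · simp only [values_eq]
    exact hlln γ hγ
  · intro l hl hl1 ε hε
    simp only [values_eq]
    exact Pool.Agent.Q74.BT.lamLaw hall hlln hγ hl hl1 hε
  · intro l hl1
    simp only [values_eq]
    exact Pool.Agent.Q74.BT.above hlowA hγ hl1

end Pool.Agent.Results.MP_d02c56_nt.PhaseTransition
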